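import Pool.Agent.helper37.F2.Spec2

set_option autoImplicit false

/-!
# MP_26dbae_co, row f2t:PB (a bipartite part with half of the edges)
-/

open scoped BigOperators

namespace Pool.Agent.F2T

open Pool.Agent.helper23.TH Pool.Agent.F2

theorem PB_half {V : Type} [Fintype V] [DecidableEq V] (v w : V) (h : v ≠ w) :
    2 * ∑ c : V → Bool, (if c v ≠ c w then 1 else 0) = Fintype.card (V → Bool) := by
  let σ : (V → Bool) → (V → Bool) := fun c => Function.update c v (!c v)
  have hσ : Function.Involutive σ := by
    intro c
    show Function.update (Function.update c v (!c v)) v (!(Function.update c v (!c v)) v) = c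
    rw [Function.update_self, Bool.not_not, Function.update_idem, Function.update_eq_self]
  have h1 : ∑ c : V → Bool, (if c v ≠ c w then 1 else 0)
      = ∑ c : V → Bool, (if c v = c w then 1 else 0) := by
    refine Fintype.sum_equiv (Function.Involutive.toPerm σ hσ) _ _ fun c => ?_
    have e1 : (Function.Involutive.toPerm σ hσ c) v = (!c v) := Function.update_self _ _ _
    have e2 : (Function.Involutive.toPerm σ hσ c) w = c w := Function.update_of_ne h.symm _ _
    rw [e1, e2]
    cases c v <;> cases c w <;> simp
  have h2 : ∑ c : V → Bool, (if c v ≠ c w then 1 else 0)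
      + ∑ c : V → Bool, (if c v = c w then 1 else 0) = Fintype.card (V → Bool) := by
    rw [← Finset.sum_add_distrib, Fintype.card, Finset.card_eq_sum_ones]
    refine Finset.sum_congr rfl fun c _ => ?_
    by_cases hc : c v = c w
    · rw [if_neg (by simpa using hc), if_pos hc]
    · rw [if_pos hc, if_neg hc]
  omega

theorem PB : PB_stmt := by
  classical
  intro V _ A hs hl
  by_contra hcon
  push Not at hcon
  have h1 : ∀ B : V → V → Prop, ∑ v, dg B Finset.univ v = ∑ v, ∑ w, (if B v w then 1 else 0) := by
    intro B
    refine Finset.sum_congr rfl fun v _ => ?_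
    unfold dg
    rw [Finset.card_filter]
  have h2 : ∑ c : V → Bool, 2 * ∑ v, dg (fun u w => A u w ∧ c u ≠ c w) Finset.univ v
      < ∑ _c : V → Bool, ∑ v, dg A Finset.univ v := by
    refine Finset.sum_lt_sum_of_nonempty Finset.univ_nonempty fun c _ => hcon c
  have h3 : ∑ c : V → Bool, 2 * ∑ v, dg (fun u w => A u w ∧ c u ≠ c w) Finset.univ v
      = ∑ _c : V → Bool, ∑ v, dg A Finset.univ v := by
    have e1 : ∀ c : V → Bool, 2 * ∑ v, dg (fun u w => A u w ∧ c u ≠ c w) Finset.univ v
        = ∑ v, ∑ w, 2 * (if A v w ∧ c v ≠ c w then 1 else 0) := by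
      intro c
      rw [h1, Finset.mul_sum]
      refine Finset.sum_congr rfl fun v _ => ?_
      rw [Finset.mul_sum]
      refine Finset.sum_congr rfl fun w _ => ?_
      by_cases hh : A v w ∧ c v ≠ c w
      · rw [if_pos hh, if_pos hh]
      · rw [if_neg hh, if_neg hh]
    rw [Finset.sum_congr rfl fun c _ => e1 c, Finset.sum_comm, h1 A, Finset.sum_const,
      smul_eq_mul, Finset.mul_sum]
    refine Finset.sum_congr rfl fun v _ => ?_
    rw [Finset.sum_comm, Finset.mul_sum]
    refine Finset.sum_congr rfl fun w _ => ?_
    by_cases hA : A v w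
    · have hne : v ≠ w := by
        rintro rfl
        exact hl _ hA
      simp only [hA, true_and, if_true, mul_one]
      rw [← Finset.mul_sum, PB_half v w hne]
      rfl
    · simp [hA]
  omega

end Pool.Agent.F2T
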